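import Mathlib
import Pool.Agent.H6.Interp

set_option autoImplicit false

namespace Pool.Agent.Results.MP_37b4fc_an.EndpointFails

/-- The continuity assertion of the question fails for `θ = 1/2`, `p = ∞` (the norm of the
interpolation space being `sup_{t>0} t^{-1/2} K(t, ·)`). -/
theorem result :
    ¬ (∀ (E0 E1 F0 F1 : Type)
      [NormedAddCommGroup E0] [NormedSpace ℝ E0] [CompleteSpace E0]
      [NormedAddCommGroup E1] [NormedSpace ℝ E1] [CompleteSpace E1]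
      [NormedAddCommGroup F0] [NormedSpace ℝ F0] [CompleteSpace F0]
      [NormedAddCommGroup F1] [NormedSpace ℝ F1] [CompleteSpace F1]
      (ιA : E1 →L[ℝ] E0) (ιB : F1 →L[ℝ] F0),
      Function.Injective ιA → Function.Injective ιB →
      ∀ (U : E0 → F0) (V : E1 → F1) (M0 M1 : ℝ),
        (∀ a b : E0, ‖U a - U b‖ ≤ M0 * ‖a - b‖) →
        (∀ x : E1, U (ιA x) = ιB (V x)) →
        (∀ x : E1, ‖V x‖ ≤ M1 * ‖x‖) →
        Continuous V →
        ∀ a : E0,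
          (∃ C : ℝ, ∀ t : ℝ, 0 < t → t ^ (-(1/2 : ℝ)) * (⨅ y : E1, (‖a - ιA y‖ + t * ‖y‖)) ≤ C) →
          ∀ ε : ℝ, 0 < ε → ∃ δ : ℝ, 0 < δ ∧ ∀ b : E0,
            (∃ C : ℝ, ∀ t : ℝ, 0 < t →
              t ^ (-(1/2 : ℝ)) * (⨅ y : E1, (‖b - ιA y‖ + t * ‖y‖)) ≤ C) →
            (∀ t : ℝ, 0 < t →
              t ^ (-(1/2 : ℝ)) * (⨅ y : E1, (‖(b - a) - ιA y‖ + t * ‖y‖)) ≤ δ) →
            (∀ t : ℝ, 0 < t →
              t ^ (-(1/2 : ℝ)) * (⨅ z : F1, (‖(U b - U a) - ιB z‖ + t * ‖z‖)) ≤ ε)) := by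
  intro h
  obtain ⟨δ, hδ, h2⟩ := h Pool.Agent.H6.Interp.X Pool.Agent.H6.Interp.X Pool.Agent.H6.Interp.X
    Pool.Agent.H6.Interp.X Pool.Agent.H6.Interp.J Pool.Agent.H6.Interp.J
    Pool.Agent.H6.Interp.J_inj Pool.Agent.H6.Interp.J_inj
    Pool.Agent.H6.Interp.U Pool.Agent.H6.Interp.V 2 1
    Pool.Agent.H6.Interp.U_lip Pool.Agent.H6.Interp.UV Pool.Agent.H6.Interp.V_le
    Pool.Agent.H6.Interp.V_cont (Pool.Agent.H6.Interp.A 0)
    ⟨3, Pool.Agent.H6.Interp.A_bound 0 le_rfl zero_le_one⟩ (1/4) (by norm_num)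
  have ht : Filter.Tendsto (fun n : ℕ => (Real.pi / 2 * (1/2) ^ n : ℝ)) Filter.atTop
      (nhds 0) := by
    have := (Pool.Agent.H6.Interp.halfT).const_mul (Real.pi / 2)
    simpa using this
  obtain ⟨n, hn1, hn2⟩ := ((ht.eventually_lt_const hδ).and (Filter.eventually_ge_atTop 1)).exists
  have hpi : 0 < Real.pi := Real.pi_pos
  have hpi4 : Real.pi < 4 := Real.pi_lt_four
  have hη0 : 0 ≤ Real.pi / 2 * (1/2) ^ n := by positivity
  have hη1 : Real.pi / 2 * (1/2) ^ n ≤ 1 := by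
    have : ((1/2 : ℝ)) ^ n ≤ (1/2) ^ 1 := pow_le_pow_of_le_one (by norm_num) (by norm_num) hn2
    nlinarith
  have hq : (0:ℝ) < (1/4) ^ n := by positivity
  have h3 := h2 (Pool.Agent.H6.Interp.A (Real.pi / 2 * (1/2) ^ n))
    ⟨3, Pool.Agent.H6.Interp.A_bound _ hη0 hη1⟩
    (by
      rw [Pool.Agent.H6.Interp.A_sub]
      intro t ht
      exact (Pool.Agent.H6.Interp.E_bound _ hη0 t ht).trans hn1.le)
    (2 * (1/4) ^ n) (by positivity)
  have h4 := Pool.Agent.H6.Interp.low _ n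
    (Pool.Agent.H6.Interp.diff_coord n (by omega)) (2 * (1/4) ^ n) (by linarith) (by linarith)
  have h5 := h4.trans h3
  norm_num at h5

end Pool.Agent.Results.MP_37b4fc_an.EndpointFails
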